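import Pool.Agent.Q225.GH.Stm

/-! Project GH (MP_128e7d_lc), job NEXT. -/

set_option autoImplicit false

namespace Pool.Agent.Q76.GH

open Finset Pool.Agent.Q225.GH

theorem t_NEXT : S_NEXT := by
  intro V _ _ H _ σ pos hv hpos Q hQ d
  have hfst : (σ d).fst = d.fst :=
    ((hv d (σ d)).1 (Equiv.Perm.sameCycle_apply_right.2 (Equiv.Perm.SameCycle.refl σ d))).symm
  unfold pot
  rcases hpos.next d with h | ⟨h0, hmax⟩
  · have h1 : (univ.filter fun d' : H.Dart => d'.fst = (σ d).fst ∧ pos d' ≤ pos (σ d)) =
        insert (σ d) (univ.filter fun d' : H.Dart => d'.fst = d.fst ∧ pos d' ≤ pos d) := by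
      ext d'
      simp only [mem_filter, mem_univ, true_and, mem_insert]
      constructor
      · rintro ⟨h2, h3⟩
        rcases Nat.lt_or_ge (pos d) (pos d') with h4 | h4
        · left
          exact hpos.inj d' (σ d) h2 (by omega)
        · right
          exact ⟨h2.trans hfst, h4⟩
      · rintro (rfl | ⟨h2, h3⟩)
        · exact ⟨rfl, le_rfl⟩
        · exact ⟨h2.trans hfst.symm, by omega⟩
    rw [h1, sum_insert, add_comm]
    simp only [mem_filter, mem_univ, true_and, not_and, not_le]
    intro _
    omega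
  · have h1 : (univ.filter fun d' : H.Dart => d'.fst = (σ d).fst ∧ pos d' ≤ pos (σ d)) =
        {σ d} := by
      ext d'
      simp only [mem_filter, mem_univ, true_and, mem_singleton]
      constructor
      · rintro ⟨h2, h3⟩
        exact hpos.inj d' (σ d) h2 (by omega)
      · rintro rfl
        exact ⟨rfl, le_rfl⟩
    have h2 : (univ.filter fun d' : H.Dart => d'.fst = d.fst ∧ pos d' ≤ pos d) =
        univ.filter fun d' : H.Dart => d'.fst = d.fst := by
      ext d'
      simp only [mem_filter, mem_univ, true_and]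
      exact ⟨fun h3 => h3.1, fun h3 => ⟨h3, hmax d' h3⟩⟩
    rw [h1, sum_singleton, h2, hQ d.fst, zero_add]

end Pool.Agent.Q76.GH
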